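import Pool.Agent.MWHP.StmtsN

/-!
# Row FRN of squad MWHP (MP_23468a_al): the free exchanges for period `n`
-/

set_option autoImplicit false

namespace Pool.Agent.MWHP.H92

open Pool.Agent.Helper14_MV Pool.Agent.Helper2_MV Pool.Agent.MVO Pool.Agent.MWL Pool.Agent.MWS
open Pool.Agent.MWA Pool.Agent.MWH Pool.Agent.MWHP

variable {β : FIC}

/-- change between two occurrences of a letter -/
theorem insN (hI : IntStmt) {n : ℕ} (hN : ItN n β) {W1 W2 : List ℕ} (P Q w w1 : List ℕ) (z : ℕ)
    (e1 : W1 = P ++ z :: (w ++ z :: Q)) (e2 : W2 = P ++ z :: (w1 ++ z :: Q))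
    (h : ∀ c ∈ w, 2 ≤ W1.count c)
    (hf : w.filter (fun c => c ≠ z) = w1.filter (fun c => c ≠ z))
    (hc : w.count z ≡ w1.count z [MOD n]) : RR β W1 W2 := by
  subst e1
  subst e2
  exact hI n β hN P w w1 Q z (fun c hc _ => h c hc) hf hc

theorem xyxyN (hA : RR β [0, 1, 0, 1] [1, 0, 1, 0]) (x y : ℕ) (P Q : List ℕ) :
    RR β (P ++ x :: y :: x :: y :: Q) (P ++ y :: x :: y :: x :: Q) := by
  have h1 := (RR.refl (β := β) P).append
    ((hA.sub (fun c => if c = 0 then [x] else [y])).append (RR.refl (β := β) Q))
  simpa using h1

theorem trN {a b c : List ℕ} (h1 : RR β a b) (h2 : RR β b c) : RR β a c := β.trans h1 h2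

theorem modAdd (n a : ℕ) : a ≡ a + n [MOD n] := by
  unfold Nat.ModEq
  simp

theorem coreN (hI : IntStmt) (m : ℕ) (hA : RR β [0, 1, 0, 1] [1, 0, 1, 0])
    (hN : ItN (m + 1) β) (p q A D : List ℕ) (x y : ℕ) (hxy : x ≠ y)
    (H : ∀ c, (c ∈ A ∨ c = x ∨ c = y ∨ c ∈ D) → 2 ≤ (p ++ (A ++ x :: y :: (D ++ q))).count c)
    (h4 : (x ∈ D ∧ y ∈ D) ∨ (x ∈ A ∧ y ∈ A) ∨ (x ∈ A ∧ x ∈ D) ∨ (y ∈ A ∧ y ∈ D)) :
    RR β (p ++ (A ++ x :: y :: (D ++ q))) (p ++ (A ++ y :: x :: (D ++ q))) := by
  have hyx : y ≠ x := hxy.symm
  rcases h4 with ⟨h1, h2⟩ | ⟨h1, h2⟩ | ⟨h1, h2⟩ | ⟨h1, h2⟩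
  · obtain ⟨D1, D2, hD⟩ := List.append_of_mem h1
    obtain ⟨E1, E2, hE⟩ := List.append_of_mem h2
    have mD : ∀ c, c ∈ D1 → c ∈ D := fun c hc => by rw [hD]; simp [hc]
    have mE : ∀ c, c ∈ E1 → c ∈ D := fun c hc => by rw [hE]; simp [hc]
    have s1 : RR β (p ++ (A ++ x :: y :: (D ++ q)))
        (p ++ (A ++ x :: y :: (List.replicate (m + 1) x ++ (D ++ q)))) := by
      refine insN hI hN (p ++ A) (D2 ++ q) (y :: D1) (y :: (List.replicate (m + 1) x ++ D1)) x
        (by rw [hD]; simp) (by rw [hD]; simp) ?_ ?_ ?_
      · intro c hc
        refine H c ?_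
        rcases List.mem_cons.1 hc with hc | hc
        · exact Or.inr (Or.inr (Or.inl hc))
        · exact Or.inr (Or.inr (Or.inr (mD c hc)))
      · simp [List.filter_cons, List.filter_append, List.filter_replicate, hyx]
      · have e : (y :: (List.replicate (m + 1) x ++ D1)).count x = (y :: D1).count x + (m + 1) := by
          simp only [List.count_append, List.count_cons, List.count_replicate_self]
          omega
        rw [e]
        exact modAdd _ _
    have s2 : RR β (p ++ (A ++ x :: y :: (List.replicate (m + 1) x ++ (D ++ q))))
        (p ++ (A ++ x :: y :: x :: y :: (List.replicate m x ++ (List.replicate m y ++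
          (D ++ q))))) := by
      refine insN hI hN (p ++ (A ++ [x])) (E2 ++ q) (List.replicate (m + 1) x ++ E1)
        (x :: y :: (List.replicate m x ++ (List.replicate m y ++ E1))) y
        (by rw [hE]; simp) (by rw [hE]; simp) ?_ ?_ ?_
      · intro c hc
        have h3 := H c (by
          rcases List.mem_append.1 hc with hc | hc
          · exact Or.inr (Or.inl (List.eq_of_mem_replicate hc))
          · exact Or.inr (Or.inr (Or.inr (mE c hc))))
        simp only [List.count_append, List.count_cons] at h3 ⊢
        omega
      · simp [List.filter_cons, List.filter_append, List.filter_replicate, hxy,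
          List.replicate_succ]
      · have e : (x :: y :: (List.replicate m x ++ (List.replicate m y ++ E1))).count y =
            (List.replicate (m + 1) x ++ E1).count y + (m + 1) := by
          have e0 : ∀ k, (List.replicate k x).count y = 0 := fun k => by
            rw [List.count_replicate]; simp [hxy]
          simp only [List.count_append, List.count_cons, List.count_replicate_self, e0]
          simp [hxy]
          omega
        rw [e]
        exact modAdd _ _
    have s3 : RR β (p ++ (A ++ x :: y :: x :: y :: (List.replicate m x ++ (List.replicate m y ++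
          (D ++ q)))))
        (p ++ (A ++ y :: x :: y :: x :: (List.replicate m x ++ (List.replicate m y ++
          (D ++ q))))) := by
      have := xyxyN hA x y (p ++ A) (List.replicate m x ++ (List.replicate m y ++ (D ++ q)))
      simpa using this
    have s4 : RR β (p ++ (A ++ y :: x :: x :: (List.replicate m x ++ (D ++ q))))
        (p ++ (A ++ y :: x :: y :: x :: (List.replicate m x ++ (List.replicate m y ++
          (D ++ q))))) := by
      refine insN hI hN (p ++ A) (E2 ++ q) (x :: x :: (List.replicate m x ++ E1))
        (x :: y :: x :: (List.replicate m x ++ (List.replicate m y ++ E1))) y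
        (by rw [hE]; simp) (by rw [hE]; simp) ?_ ?_ ?_
      · intro c hc
        have h3 := H c (by
          rcases List.mem_cons.1 hc with hc | hc
          · exact Or.inr (Or.inl hc)
          · rcases List.mem_cons.1 hc with hc | hc
            · exact Or.inr (Or.inl hc)
            · rcases List.mem_append.1 hc with hc | hc
              · exact Or.inr (Or.inl (List.eq_of_mem_replicate hc))
              · exact Or.inr (Or.inr (Or.inr (mE c hc))))
        simp only [List.count_append, List.count_cons] at h3 ⊢
        omega
      · simp [List.filter_cons, List.filter_append, List.filter_replicate, hxy]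
      · have e : (x :: y :: x :: (List.replicate m x ++ (List.replicate m y ++ E1))).count y =
            (x :: x :: (List.replicate m x ++ E1)).count y + (m + 1) := by
          simp only [List.count_append, List.count_cons, List.count_replicate_self]
          simp [hxy]
          omega
        rw [e]
        exact modAdd _ _
    have s5 : RR β (p ++ (A ++ y :: x :: (D ++ q)))
        (p ++ (A ++ y :: x :: x :: (List.replicate m x ++ (D ++ q)))) := by
      refine insN hI hN (p ++ (A ++ [y])) (D2 ++ q) D1 (x :: (List.replicate m x ++ D1)) x
        (by rw [hD]; simp) (by rw [hD]; simp) ?_ ?_ ?_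
      · intro c hc
        have h3 := H c (Or.inr (Or.inr (Or.inr (mD c hc))))
        simp only [List.count_append, List.count_cons] at h3 ⊢
        omega
      · simp [List.filter_append, List.filter_replicate]
      · have e : (x :: (List.replicate m x ++ D1)).count x = D1.count x + (m + 1) := by
          simp only [List.count_append, List.count_cons, List.count_replicate_self]
          simp
          omega
        rw [e]
        exact modAdd _ _
    exact trN s1 (trN s2 (trN s3 (trN s4.symm s5.symm)))
  · obtain ⟨A1, A2, hA1⟩ := List.append_of_mem h1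
    obtain ⟨F1, F2, hF⟩ := List.append_of_mem h2
    have mA : ∀ c, c ∈ A2 → c ∈ A := fun c hc => by rw [hA1]; simp [hc]
    have mF : ∀ c, c ∈ F2 → c ∈ A := fun c hc => by rw [hF]; simp [hc]
    have s1 : RR β (p ++ (A ++ x :: y :: (D ++ q)))
        (p ++ (A ++ (List.replicate (m + 1) y ++ x :: y :: (D ++ q)))) := by
      refine insN hI hN (p ++ F1) (D ++ q) (F2 ++ [x]) (F2 ++ (List.replicate (m + 1) y ++ [x])) y
        (by rw [hF]; simp) (by rw [hF]; simp) ?_ ?_ ?_
      · intro c hc
        refine H c ?_
        rcases List.mem_append.1 hc with hc | hc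
        · exact Or.inl (mF c hc)
        · rw [List.mem_singleton] at hc
          exact Or.inr (Or.inl hc)
      · simp [List.filter_cons, List.filter_append, List.filter_replicate]
      · have e : (F2 ++ (List.replicate (m + 1) y ++ [x])).count y =
            (F2 ++ [x]).count y + (m + 1) := by
          simp only [List.count_append, List.count_cons, List.count_replicate_self]
          omega
        rw [e]
        exact modAdd _ _
    have s2 : RR β (p ++ (A ++ (List.replicate (m + 1) y ++ x :: y :: (D ++ q))))
        (p ++ (A ++ (List.replicate m x ++ (List.replicate m y ++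
          x :: y :: x :: y :: (D ++ q))))) := by
      refine insN hI hN (p ++ A1) (y :: (D ++ q)) (A2 ++ List.replicate (m + 1) y)
        (A2 ++ (List.replicate m x ++ (List.replicate m y ++ [x, y]))) x
        (by rw [hA1]; simp) (by rw [hA1]; simp) ?_ ?_ ?_
      · intro c hc
        have h3 := H c (by
          rcases List.mem_append.1 hc with hc | hc
          · exact Or.inl (mA c hc)
          · exact Or.inr (Or.inr (Or.inl (List.eq_of_mem_replicate hc))))
        simp only [List.count_append, List.count_cons] at h3 ⊢
        omega
      · simp [List.filter_append, List.filter_replicate, hyx, List.replicate_succ']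
      · have e : (A2 ++ (List.replicate m x ++ (List.replicate m y ++ [x, y]))).count x =
            (A2 ++ List.replicate (m + 1) y).count x + (m + 1) := by
          have e0 : ∀ k, (List.replicate k y).count x = 0 := fun k => by
            rw [List.count_replicate]; simp [hyx]
          simp only [List.count_append, List.count_cons, List.count_replicate_self, e0]
          simp [hyx]
        rw [e]
        exact modAdd _ _
    have s3 : RR β (p ++ (A ++ (List.replicate m x ++ (List.replicate m y ++
          x :: y :: x :: y :: (D ++ q)))))
        (p ++ (A ++ (List.replicate m x ++ (List.replicate m y ++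
          y :: x :: y :: x :: (D ++ q))))) := by
      have := xyxyN hA x y (p ++ (A ++ (List.replicate m x ++ List.replicate m y))) (D ++ q)
      simpa using this
    have s4 : RR β (p ++ (A ++ (List.replicate (m + 2) y ++ x :: (D ++ q))))
        (p ++ (A ++ (List.replicate m x ++ (List.replicate m y ++
          y :: x :: y :: x :: (D ++ q))))) := by
      refine insN hI hN (p ++ A1) (D ++ q) (A2 ++ List.replicate (m + 2) y)
        (A2 ++ (List.replicate m x ++ (List.replicate m y ++ [y, x, y]))) x
        (by rw [hA1]; simp) (by rw [hA1]; simp) ?_ ?_ ?_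
      · intro c hc
        have h3 := H c (by
          rcases List.mem_append.1 hc with hc | hc
          · exact Or.inl (mA c hc)
          · exact Or.inr (Or.inr (Or.inl (List.eq_of_mem_replicate hc))))
        have e5 : List.count c (List.replicate (m + 2) y) =
            List.count c (List.replicate m y) + 2 * List.count c [y] := by
          rw [List.count_replicate, List.count_replicate, List.count_singleton]
          split_ifs <;> omega
        simp only [List.count_append, List.count_cons, e5, List.count_singleton] at h3 ⊢
        omega
      · simp [List.filter_append, List.filter_replicate, hyx, List.replicate_succ',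
          List.append_assoc]
      · have e : (A2 ++ (List.replicate m x ++ (List.replicate m y ++ [y, x, y]))).count x =
            (A2 ++ List.replicate (m + 2) y).count x + (m + 1) := by
          have e0 : ∀ k, (List.replicate k y).count x = 0 := fun k => by
            rw [List.count_replicate]; simp [hyx]
          simp only [List.count_append, List.count_cons, List.count_replicate_self, e0]
          simp [hyx]
        rw [e]
        exact modAdd _ _
    have s5 : RR β (p ++ (A ++ y :: x :: (D ++ q)))
        (p ++ (A ++ (List.replicate (m + 2) y ++ x :: (D ++ q)))) := by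
      refine insN hI hN (p ++ F1) (x :: (D ++ q)) F2 (F2 ++ List.replicate (m + 1) y) y
        (by rw [hF]; simp) (by rw [hF, List.replicate_succ' (n := m + 1)]; simp) ?_ ?_ ?_
      · intro c hc
        have h3 := H c (Or.inl (mF c hc))
        simp only [List.count_append, List.count_cons] at h3 ⊢
        omega
      · simp [List.filter_append, List.filter_replicate]
      · have e : (F2 ++ List.replicate (m + 1) y).count y = F2.count y + (m + 1) := by
          simp only [List.count_append, List.count_replicate_self]
        rw [e]
        exact modAdd _ _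
    exact trN s1 (trN s2 (trN s3 (trN s4.symm s5.symm)))
  · obtain ⟨A1, A2, hA1⟩ := List.append_of_mem h1
    obtain ⟨D1, D2, hD⟩ := List.append_of_mem h2
    have mA : ∀ c, c ∈ A2 → c ∈ A := fun c hc => by rw [hA1]; simp [hc]
    have mD : ∀ c, c ∈ D1 → c ∈ D := fun c hc => by rw [hD]; simp [hc]
    refine insN hI hN (p ++ A1) (D2 ++ q) (A2 ++ x :: y :: D1) (A2 ++ y :: x :: D1) x
      (by rw [hA1, hD]; simp) (by rw [hA1, hD]; simp) ?_ ?_ ?_
    · intro c hc
      refine H c ?_
      rcases List.mem_append.1 hc with hc | hc
      · exact Or.inl (mA c hc)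
      · rcases List.mem_cons.1 hc with hc | hc
        · exact Or.inr (Or.inl hc)
        · rcases List.mem_cons.1 hc with hc | hc
          · exact Or.inr (Or.inr (Or.inl hc))
          · exact Or.inr (Or.inr (Or.inr (mD c hc)))
    · simp [List.filter_append, List.filter_cons, hyx]
    · have e : (A2 ++ x :: y :: D1).count x = (A2 ++ y :: x :: D1).count x := by
        simp only [List.count_append, List.count_cons]
        omega
      rw [e]
  · obtain ⟨F1, F2, hF⟩ := List.append_of_mem h1
    obtain ⟨E1, E2, hE⟩ := List.append_of_mem h2
    have mF : ∀ c, c ∈ F2 → c ∈ A := fun c hc => by rw [hF]; simp [hc]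
    have mE : ∀ c, c ∈ E1 → c ∈ D := fun c hc => by rw [hE]; simp [hc]
    refine insN hI hN (p ++ F1) (E2 ++ q) (F2 ++ x :: y :: E1) (F2 ++ y :: x :: E1) y
      (by rw [hF, hE]; simp) (by rw [hF, hE]; simp) ?_ ?_ ?_
    · intro c hc
      refine H c ?_
      rcases List.mem_append.1 hc with hc | hc
      · exact Or.inl (mF c hc)
      · rcases List.mem_cons.1 hc with hc | hc
        · exact Or.inr (Or.inl hc)
        · rcases List.mem_cons.1 hc with hc | hc
          · exact Or.inr (Or.inr (Or.inl hc))
          · exact Or.inr (Or.inr (Or.inr (mE c hc)))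
    · simp [List.filter_append, List.filter_cons, hxy]
    · have e : (F2 ++ x :: y :: E1).count y = (F2 ++ y :: x :: E1).count y := by
        simp only [List.count_append, List.count_cons]
        omega
      rw [e]

/-- **Row FRN** -/
theorem frn (hI : IntStmt) : FrnStmt := by
  intro n β hn hA hN k C hC i hi A D x y hCi hxy h4
  obtain ⟨m, rfl⟩ : ∃ m, n = m + 1 := ⟨n - 1, by omega⟩
  have e1 : asm k C = pre C i ++ (A ++ x :: y :: (D ++ suf C i (k - i))) := by
    rw [asm_split hi, hCi]
    simp
  have e2 : asm k (Function.update C i (A ++ y :: x :: D)) =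
      pre C i ++ (A ++ y :: x :: (D ++ suf C i (k - i))) := by
    rw [asm_update hi]
    simp
  rw [e1, e2]
  refine coreN hI m hA hN _ _ A D x y hxy ?_ h4
  intro c hc
  have hc' : c ∈ C i := by
    rw [hCi]
    simp only [List.mem_append, List.mem_cons]
    tauto
  rw [← e1, count_asm (hC.ok i hi c hc')]
  exact hC.ml i hi c hc'

end Pool.Agent.MWHP.H92
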